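import Pool.Agent.Lib.MP_5684f0_lc.I.Main
import Pool.Agent.Lib.MP_5684f0_lc.V.Par

/-! An order preserving function lies above the join of a sequence of difference classes or,
piece by piece, below functions of the dual classes. Copy of the end of `I/Main`. -/

namespace Pool.Agent.Lib.MP_5684f0_lc.V

open Filter Topology Set PiNat G T T.Bor I
open scoped Ordinal

/-- Sets covered by countably many pieces, on each of which all bits are guessed from one state. -/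
def cov (C : Set (Set Cs)) (f : Cs → Cs) (η : ℕ → Ordinal.{0}) (b : ℕ → Bool) : SId where
  N A := ∃ (Y : ℕ → Set Cs) (k : ℕ → ℕ), A ⊆ ⋃ l, Y l ∧ ∀ l a, (Y l).Nonempty →
    ∃ A', Pr C (η (k l)) (b (k l)) A' ∧ ∀ y ∈ Y l, (f y a = true ↔ y ∈ A')
  empty := ⟨fun _ => ∅, fun _ => 0, empty_subset _, fun _ _ h => absurd h not_nonempty_empty⟩
  mono := fun h ⟨Y, k, h1, h2⟩ => ⟨Y, k, h.trans h1, h2⟩
  iUnion A h := by
    choose Y k h1 h2 using h
    refine ⟨fun l => Y l.unpair.1 l.unpair.2, fun l => k l.unpair.1 l.unpair.2,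
      iUnion_subset fun n x hx => ?_, fun l => h2 _ _⟩
    obtain ⟨k, hk⟩ := mem_iUnion.1 (h1 n hx)
    exact mem_iUnion.2 ⟨Nat.pair n k, by simpa using hk⟩

theorem le_cov {C : Set (Set Cs)} {f : Cs → Cs} {η : ℕ → Ordinal.{0}} {b : ℕ → Bool} (k : ℕ) :
    Le (I.cov C f (η k) (b k)) (cov C f η b) := fun _ ⟨Y, h⟩ => ⟨Y, fun _ => k, h⟩

theorem obs {L : Lay} {η : ℕ → Ordinal.{0}} {b : ℕ → Bool} {en : ℕ → St} {ix : St → ℕ}
    (hix : ∀ (u : St) m, u.1 ≤ η m → en (ix u) = u) {g : Cs → Cs}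
    (hg : ∀ a, Pr (Cl L K) (η a) (b a) {x | g x a = true}) : ∃ (u : Cs → ℕ → ℕ → ℕ) (G : Cs → ℕ → ℕ),
      (∀ t, Ms L 0 C0 t _ fun y => u y t) ∧ (∀ y m, (en (G y m)).2 = g y m) ∧ ∀ y m,
      (∀ t, u y t m = ix (η m, b m) ∨ (en (u y t m)).1 < (en (ix (η m, b m))).1) ∧
      (∀ t, u y (t + 1) m = u y t m ∨ (en (u y (t + 1) m)).1 < (en (u y t m)).1) ∧
      ∀ᶠ t in atTop, u y t m = G y m := by
  classical
  choose st s1 s2 s3 s4 using hg
  obtain ⟨hC, -⟩ := Good.ms L 0 good_C0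
  choose tm hT using fun q : ℕ => Cl.ms L 0 good_C0
    (fun U (hU : IsClopen U) => ⟨0, fun y _ => mem_nhdsWithin_of_mem_nhds (by
      by_cases h : y ∈ U
      · filter_upwards [hU.2.mem_nhds h] with y' h' using by simp [h, h']
      · filter_upwards [hU.1.isOpen_compl.mem_nhds h] with y' h' using
          propext (iff_of_false h' h))⟩) _
    (s1 q.unpair.1 q.unpair.2.unpair.1 (en q.unpair.2.unpair.2))
  let φ : ℕ → ℕ → Cs → Prop := fun T q y =>
    tm q ≤ T ∧ st q.unpair.1 y q.unpair.2.unpair.1 = en q.unpair.2.unpair.2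
  let kn : Cs → ℕ → ℕ → Prop := fun y T q => if q < T then φ T q y else False
  let τ : (ℕ → Prop) → ℕ → ℕ → ℕ := fun w T m =>
    Nat.findGreatest (fun t => ∃ i, w (Nat.pair m (Nat.pair t i))) T
  let Fn : (ℕ → Prop) → ℕ → ℕ → ℕ := fun w T m =>
    if h : ∃ i, w (Nat.pair m (Nat.pair (τ w T m) i)) then ix (en h.choose) else ix (η m, b m)
  have e0 : ∀ y m t, (st m y t).1 ≤ η m := fun y m t => by
    rcases down_le (s3 m y) (Nat.zero_le t) with d | d <;> rw [s2] at d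
    exacts [by rw [d], d.le]
  have hk : ∀ y T m t i, kn y T (Nat.pair m (Nat.pair t i)) ↔ Nat.pair m (Nat.pair t i) < T ∧
      tm (Nat.pair m (Nat.pair t i)) ≤ T ∧ st m y t = en i := fun y T m t i => by
    simp only [kn, φ, if_false_right, Nat.unpair_pair]
  have e1 : ∀ y T m, Fn (kn y T) T m = ix (st m y (τ (kn y T) T m)) := fun y T m => by
    simp only [Fn]
    split_ifs with h
    · rw [((hk _ _ _ _ _).1 h.choose_spec).2.2]
    · rw [show τ (kn y T) T m = 0 from by_contra fun a => h (Nat.findGreatest_of_ne_zero rfl a), s2]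
  have e2 : ∀ y m T, τ (kn y T) T m ≤ τ (kn y (T + 1)) (T + 1) m := fun y m T =>
    Nat.findGreatest_mono (fun t ⟨i, h⟩ => ⟨i, by
      rw [hk] at h ⊢
      exact ⟨by omega, by omega, h.2.2⟩⟩) T.le_succ
  have e3 : ∀ y m {t t'}, t ≤ t' → ix (st m y t') = ix (st m y t) ∨
      (en (ix (st m y t'))).1 < (en (ix (st m y t))).1 := fun y m t t' h => by
    rw [hix _ _ (e0 y m t), hix _ _ (e0 y m t')]
    exact (down_le (s3 m y) h).imp_left (congrArg ix)
  choose t0 h0 using fun y m => Down.stab (s3 m y)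
  refine ⟨fun y T => Fn (kn y T) T, fun y m => ix (st m y (t0 y m)), fun T =>
    hC.fin (φ := φ T) (fun _ => False) (fun w => Fn w T) T fun q _ => ?_, fun y m => ?_,
    fun y m => ⟨fun T => ?_, fun T => ?_, ?_⟩⟩
  · by_cases h : tm q ≤ T
    · exact hC.map (fun a => tm q ≤ T ∧ a) (hC.mono h (hT q))
    · simpa [φ, h] using hC.const T False
  · obtain ⟨t, h1, h2⟩ := ((eventually_ge_atTop (t0 y m)).and (s4 m y)).exists
    rw [hix _ _ (e0 y m _), ← h0 y m t h1]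
    exact Bool.eq_iff_iff.2 h2.symm
  · simpa only [e1, s2] using e3 y m (Nat.zero_le (τ (kn y T) T m))
  · simpa only [e1] using e3 y m (e2 y m T)
  · obtain ⟨q, hq⟩ : ∃ q, q = Nat.pair m (Nat.pair (t0 y m) (ix (st m y (t0 y m)))) := ⟨_, rfl⟩
    filter_upwards [eventually_gt_atTop (q + tm q + t0 y m)] with T hT
    rw [e1, h0 y m _ (Nat.le_findGreatest (by omega) ⟨ix (st m y (t0 y m)), by
      rw [hk, ← hq, hix _ _ (e0 y m _)]
      exact ⟨by omega, by omega, rfl⟩⟩)]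

theorem join0 {L : Lay} {f : Cs → Cs} (hop : OP f)
    (hb : ∀ a, {x | f x a = true} ∈ Cl .one (Cl L K)) {η : ℕ → Ordinal.{0}} (hη : ∀ k, η k < ω₁)
    (b : ℕ → Bool) :
    (∀ g : Cs → Cs, (∀ a, ∃ k, Pr (Cl L K) (η k) (b k) {x | g x a = true}) → leCone g f) ∨
      ∃ g : ℕ → Cs → Cs, (∀ k a, Pr (Cl L K) (η k) (!b k) {x | g k x a = true}) ∧
        ∀ x, ∃ k, leM (f x) (g k x) := by
  classical
  have hf : Measurable f := measurable_pi_lambda _ fun n => measurable_to_bool (Cl_borel .one _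
    (Cl_borel L _ fun _ h => IsOpen.measurableSet (IsClopen.isOpen h)) _ (hb n))
  obtain ⟨ν, M, hν, hM, -, -, hT⟩ := tower L 0 based0
  by_cases hc : (cov (Cl L K) f η fun k => !b k).N univ
  · obtain ⟨Y, k, h1, h2⟩ := hc
    have h3 : ∀ j l a, ∃ A', Pr (Cl L K) (η j) (!b j) A' ∧
        (k l = j → ∀ y ∈ Y l, (f y a = true ↔ y ∈ A')) := fun j l a => by
      by_cases e : k l = j ∧ (Y l).Nonempty
      · exact e.1 ▸ (h2 l a e.2).imp fun _ h => ⟨h.1, fun _ => h.2⟩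
      · exact ⟨_, pr_const hν.dif hν.top _ _, fun e1 y hy => absurd ⟨e1, y, hy⟩ e⟩
    choose A a1 a2 using h3
    refine Or.inr ⟨fun j y n => decide (y ∈ A j n.unpair.1 n.unpair.2),
      fun j n => by simpa using a1 _ _ _, fun y => ?_⟩
    obtain ⟨l, hl⟩ := mem_iUnion.1 (h1 (mem_univ y))
    exact ⟨k l, _, computable_pair_left l, fun n =>
      Bool.eq_iff_iff.2 (by simpa using a2 _ l n rfl y hl)⟩
  refine Or.inl fun g hg => ?_
  choose k hg using hg
  obtain ⟨en, hen⟩ := (countable_iUnion fun k =>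
    countable_lower (succ_lt_omega_one (hη k))).exists_eq_range
    ⟨(η 0, b 0), mem_iUnion.2 ⟨0, Order.lt_succ (η 0)⟩⟩
  have hix : ∀ u : St, ∃ i, ∀ m, u.1 ≤ η (k m) → en i = u := fun u => by
    by_cases h : ∃ m, u.1 ≤ η (k m)
    · obtain ⟨m, h⟩ := h
      exact ((hen ▸ mem_iUnion.2 ⟨k m, Order.lt_succ_of_le h⟩ : u ∈ range en)).imp fun _ a _ _ => a
    · exact ⟨0, fun m a => absurd ⟨m, a⟩ h⟩
  choose ix hix using hix
  choose S S1 S2 using fun p : ℕ × Bool => gen_borel {x | f x p.1 ≠ p.2}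
    (((measurable_pi_apply p.1).comp hf) (measurableSet_singleton p.2)).compl
  obtain ⟨F, f0, hF⟩ := exists_frc hc (Ω := ((fun μ J X => ext J {W ∈ μ | X.N W}) '' (M ∪ range ν) ∪
    (fun A J _ => ext J {A}) '' ⋃ p, S p) ∪
      range fun (p : ℕ × ℕ) J _ => E (Cl L K) J (f · p.1) (en p.2).1 (en p.2).2)
    ((((hM.union (countable_range _)).image _).union ((countable_iUnion S1).image _)).union
      (countable_range _))
  have k1 : ∀ μ ∈ M ∪ range ν, F.ClK μ := fun μ h => hF _ (Or.inl (Or.inl ⟨μ, h, rfl⟩))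
  have k2 : ∀ a i, ∀ J ∈ range F.e, E (Cl L K) J (f · a) (en i).1 (en i).2 ∈ range F.e :=
    fun a i J h => hF _ (Or.inr ⟨(a, i), rfl⟩) J h J h
  obtain ⟨u, G, u1, u2, u3⟩ := obs (η := fun m => η (k m)) (b := fun m => b (k m)) hix hg
  have := MP_5684f0_lc.V.par hf hop hb (F.lip_id ν) (hT F fun μ h => k1 μ (Or.inl h)) F.pr_vw
    (V := fun a b => F.Fo {x | f x a ≠ b}) (fun a b => F.op_St (·.N {x | f x a ≠ b}))
    ((eventually_countable_forall.2 fun p => S2 p F fun A h J hJ =>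
      hF _ (Or.inl (Or.inr ⟨A, mem_iUnion.2 ⟨p, h⟩, rfl⟩)) J hJ J hJ).mono fun y h a b h' =>
        by_contra fun c => F.excl h' ((h (a, b)).1 c))
    (v := fun i => (en i).2) (lt := fun j i => (en j).1 < (en i).1) (fun m A hA ⟨y, hy⟩ => ?_) u1 u3
  · simpa only [u2] using this
  obtain ⟨l, hl⟩ := (ev_cyl (hA.mem_nhds hy)).exists
  obtain ⟨a, ha⟩ := I.exists_bit hν.dif hν.top (η := η (k m)) (b := b (k m)) (fun _ h =>
    (f0 ▸ F.St_mono y (Nat.zero_le l) : Le (cov _ f η fun k => !b k) _)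
      (le_cov (b := fun k => !b k) (k m) h)) (F.inv y l).1.1
  have e0 := hix (η (k m), b (k m)) m le_rfl
  obtain ⟨x0, x1, x2⟩ := F.ext1 y l (k2 a (ix (η (k m), b (k m))) _ (F.inv y l).1.2) (by rwa [e0]) (le_E _ _)
  refine ⟨cylinder y l, _, cyl_open y l, hl, a, fun i => {x | ∃ n,
    Le (E (Cl L K) (F.St y l) (f · a) (en i).1 (en i).2) (F.St x n)}, x0, l + 1, rfl,
    fun x hx => ⟨cyl_trans (cylinder_anti _ l.le_succ hx) x1, l + 1, by
      rwa [F.St_congr hx _ le_rfl]⟩, fun i => ⟨F.op_St _, fun x ⟨n, h⟩ => ⟨n, h (bad_E _ _)⟩⟩,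
    fun i j h x ⟨hx, n0, hn⟩ M => ?_⟩
  obtain ⟨x', b1, b2⟩ := F.mix hν (fun n => k1 _ (Or.inr (mem_range_self n))) x x l
    (H := fun n => if n < n0 then F.St y l else E (Cl L K) (F.St y l) (f · a) (en j).1 (en j).2)
    (fun n => by
      split_ifs
      exacts [fun _ a => a, le_E _ _, by omega, fun _ a => a])
    (by
      rw [F.St_congr hx l le_rfl]
      split_ifs
      exacts [fun _ a => a, le_E _ _])
    (fun n => by
      split_ifs
      exacts [(F.inv y l).1.2, k2 a j _ (F.inv y l).1.2])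
    fun n h1 U hU h2 => by
      split_ifs at h2
      · exact F.St_mono x (by omega) (F.St_congr hx l le_rfl ▸ h2)
      · exact F.St_mono x (by omega) (hn (low_E h _ _ hU h2))
  refine ⟨x', ⟨cyl_trans b1 hx, max l n0 + 1, ?_⟩,
    F.mix' b1 (self_mem_cylinder _ _) (fun n h => (b2 n h).2) M⟩
  simpa only [if_neg (le_max_right l n0).not_gt] using (b2 _ (le_max_left l n0)).1

theorem main {L : Lay} {f π : Cs → Cs} {c : Cs}
    (hop : ∀ x y, leT c x → leT x y → leM (f x) (f y))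
    (hT : ∀ x, leT c x → leT (π x) x ∧ leT x (π x))
    (hb : ∀ a, {x | f (π x) a = true} ∈ Cl .one (Cl L K)) {η : ℕ → Ordinal.{0}}
    (hη : ∀ k, η k < ω₁) (b : ℕ → Bool) :
    (∀ g : Cs → Cs, (∀ a, ∃ k, Pr (Cl L K) (η k) (b k) {x | g x a = true}) → leCone g f) ∨
      ∃ g : ℕ → Cs → Cs, (∀ k a, Pr (Cl L K) (η k) (!b k) {x | g k x a = true}) ∧
        ∀ x, leT c x → ∃ k, leM (f x) (g k x) := by
  have hc : ∀ x, leT c (π (join x c)) := fun x =>
    (leT_join_right x c).trans (hT _ (leT_join_right x c)).2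
  have hi : ∀ (g : Cs → Cs) x, leT c x → leM (g x) (g x) := fun _ _ _ =>
    ⟨id, Computable.id, fun _ => rfl⟩
  refine (join0 (L := L) (f := fun x => f (π (join x c)))
    (fun x y hxy => hop _ _ (hc x) ((hT _ (leT_join_right x c)).1.trans ((join_leT
      (hxy.trans (leT_join_left y c)) (leT_join_right y c)).trans (hT _ (leT_join_right y c)).2)))
    (fun a => N.cl_pre (φ := fun x => join x c) .one (N.cl_pre L (C := K)
      fun _ (h : IsClopen _) => h.preimage (continuous_join c)) _ (hb a)) hη b).imp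
    (fun h g hg => leCone_of (h g hg) (hi g) fun x hx => hop _ _ (hc x)
      ((hT _ (leT_join_right x c)).1.trans (join_leT (leT_refl x) hx)))
    fun ⟨g, g1, g2⟩ => ⟨g, g1, fun x hx => (g2 x).imp fun k ⟨σ, s1, s2⟩ => ?_⟩
  obtain ⟨ρ, r1, r2⟩ := hop _ _ hx ((leT_join_left x c).trans (hT _ (leT_join_right x c)).2)
  exact ⟨σ ∘ ρ, s1.comp r1, fun n => (r2 n).trans (s2 _)⟩

theorem pureSeq {L : Lay} {f π : Cs → Cs} {c : Cs}
    (hop : ∀ x y, leT c x → leT x y → leM (f x) (f y))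
    (hT : ∀ x, leT c x → leT (π x) x ∧ leT x (π x))
    (hb : ∀ a, {x | f (π x) a = true} ∈ Cl .one (Cl L K)) (η : ℕ → Ordinal.{0})
    (hη : ∀ k, η k < ω₁) (b : ℕ → Bool) :
    (∀ g : Cs → Cs, (∀ a, ∃ k, Pr (Cl L K) (η k) (b k) {x | g x a = true}) → leCone g f) ∨
      ∃ G : ℕ → Cs → Cs, (∀ k a, Pr (Cl L K) (η k) (!b k) {x | G k x a = true}) ∧
        ∃ d, ∀ x, leT d x → ∃ k, leMc d (f x) (G k x) :=
  (main hop hT hb hη b).imp_right fun ⟨g, g1, g2⟩ => ⟨g, g1, c, fun x hx =>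
    (g2 x hx).imp fun _ ⟨ρ, h1, h2⟩ => ⟨ρ, tr_iff.2 (.of_computable h1), h2⟩⟩

end Pool.Agent.Lib.MP_5684f0_lc.V
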